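import Pool.Agent.P.MP_6e86bf_an.Schur

/-! The Lipschitz-free space over a complete purely 1-unrectifiable metric space has the 3-Schur
property, and the constant 3 is optimal already for uniformly separated spaces. -/

namespace Pool.Agent.Results.MP_6e86bf_an.SchurThree

open Pool.Agent.P.MP_6e86bf_an

universe u

theorem result :
    (∀ (M : Type u) [MetricSpace M] [CompleteSpace M] [MeasurableSpace M] [BorelSpace M],
      PurelyUnrectifiable M → ∀ (o : M) (x : ℕ → Free o), Bornology.IsBounded (Set.range x) →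
        osc x ≤ 3 * clusterDiam x) ∧
    ∃ (M : Type) (_ : MetricSpace M) (o : M) (x : ℕ → Free o),
      (∃ δ : ℝ, 0 < δ ∧ ∀ a b : M, a ≠ b → δ ≤ dist a b) ∧ Bornology.IsBounded (Set.range x) ∧
        osc x = 3 ∧ clusterDiam x = 1 :=
  ⟨fun _ _ _ _ _ h o x hx => schur h o x hx,
    Ex, inferInstance, Ex.a 0, _, Ex.sep, Ex.x_bdd, Ex.sharp2⟩

end Pool.Agent.Results.MP_6e86bf_an.SchurThree
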