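import Pool.Agent.P.MP_6e86bf_an.Ex

/-! In the Lipschitz-free space over a uniformly separated, or more generally a complete purely
1-unrectifiable, metric space one has `omega ≤ 3 wk`, and the constant 3 is optimal. -/

namespace Pool.Agent.Results.MP_6e86bf_an.SharpThree

open Pool.Agent.P.MP_6e86bf_an

universe u

theorem result :
    (∀ (M : Type u) [MetricSpace M] [MeasurableSpace M] [BorelSpace M],
      ((∃ δ : ℝ, 0 < δ ∧ ∀ x y : M, x ≠ y → δ ≤ dist x y) ∨
        (CompleteSpace M ∧ PurelyUnrectifiable M)) →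
      ∀ (o : M) (A : Set (Free o)), Bornology.IsBounded A → omega A ≤ 3 * wk A) ∧
    ∃ (M : Type) (_ : MetricSpace M) (o : M) (A : Set (Free o)),
      (∃ δ : ℝ, 0 < δ ∧ ∀ x y : M, x ≠ y → δ ≤ dist x y) ∧ Bornology.IsBounded A ∧
        omega A = 3 ∧ wk A = 1 := by
  refine ⟨fun M _ _ _ h o A hA => ?_, Ex, inferInstance, Ex.a 0, _, Ex.sep, Ex.bdd, Ex.sharp⟩
  rcases h with h | ⟨_, h⟩
  · exact omega_le (sep_core h) A hA
  · exact upper h o A hA

end Pool.Agent.Results.MP_6e86bf_an.SharpThree
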